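import Mathlib

set_option autoImplicit false

/-!
# Orders modulo an integer
-/

namespace Pool.Agent.P8H52.TQ

theorem ordl {N α : ℤ} {p k : ℕ} (hp : p.Prime) (h1 : N ∣ (p : ℤ) ^ k * α)
    (h2 : ∀ j < k, ¬ N ∣ (p : ℤ) ^ j * α) (m : ℤ) (hm : N ∣ m * α) : (p : ℤ) ^ k ∣ m := by
  have hg : Int.gcd m ((p : ℤ) ^ k) ∣ p ^ k := by
    have h := Int.gcd_dvd_right (a := m) (b := (p : ℤ) ^ k)
    exact_mod_cast h
  obtain ⟨j, hj, hgj⟩ := (Nat.dvd_prime_pow hp).1 hg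
  have hb := Int.gcd_eq_gcd_ab m ((p : ℤ) ^ k)
  rw [hgj] at hb
  have h3 : N ∣ (p : ℤ) ^ j * α := by
    have e : (p : ℤ) ^ j * α = m * α * Int.gcdA m ((p : ℤ) ^ k) +
        (p : ℤ) ^ k * α * Int.gcdB m ((p : ℤ) ^ k) := by
      have : ((p ^ j : ℕ) : ℤ) = (p : ℤ) ^ j := by push_cast; rfl
      rw [← this, hb]; ring
    rw [e]
    exact dvd_add (hm.mul_right _) (h1.mul_right _)
  rcases hj.lt_or_eq with h | h
  · exact absurd h3 (h2 j h)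
  · have h4 := Int.gcd_dvd_left (a := m) (b := (p : ℤ) ^ k)
    rw [hgj, h] at h4
    exact_mod_cast h4

theorem powd {n a : ℤ} {p r : ℕ} (hp : p.Prime) (h1 : n ∣ (p : ℤ) ^ r * a)
    (h2 : ∀ j < r, ¬ n ∣ (p : ℤ) ^ j * a) : (p : ℤ) ^ r ∣ n := by
  have hg : Int.gcd n ((p : ℤ) ^ r) ∣ p ^ r := by
    have h := Int.gcd_dvd_right (a := n) (b := (p : ℤ) ^ r)
    exact_mod_cast h
  obtain ⟨j, hj, hgj⟩ := (Nat.dvd_prime_pow hp).1 hg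
  have hb := Int.gcd_eq_gcd_ab n ((p : ℤ) ^ r)
  obtain ⟨n1, hn1⟩ := Int.gcd_dvd_left (a := n) (b := (p : ℤ) ^ r)
  obtain ⟨q, hq⟩ := Int.gcd_dvd_right (a := n) (b := (p : ℤ) ^ r)
  obtain ⟨g, hgg⟩ : ∃ g : ℤ, g = ((Int.gcd n ((p : ℤ) ^ r) : ℕ) : ℤ) := ⟨_, rfl⟩
  obtain ⟨u, hu⟩ : ∃ u, u = Int.gcdA n ((p : ℤ) ^ r) := ⟨_, rfl⟩
  obtain ⟨v, hv⟩ : ∃ v, v = Int.gcdB n ((p : ℤ) ^ r) := ⟨_, rfl⟩
  rw [← hgg, ← hu, ← hv] at hb
  rw [← hgg] at hn1 hq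
  have hgp : g = (p : ℤ) ^ j := by rw [hgg, hgj]; push_cast; rfl
  have hg0 : g ≠ 0 := by
    rw [hgp]
    exact pow_ne_zero _ (by exact_mod_cast hp.ne_zero)
  have hcop : IsCoprime n1 q := by
    refine ⟨u, v, ?_⟩
    have h3 : g * (u * n1 + v * q) = g * 1 := by
      rw [mul_one]
      conv_rhs => rw [hb]
      rw [hn1, hq]
      ring
    exact mul_left_cancel₀ hg0 h3
  have h3 : n1 ∣ q * a := by
    have h4 : g * n1 ∣ g * (q * a) := by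
      rw [← hn1, ← mul_assoc, ← hq]; exact h1
    exact (mul_dvd_mul_iff_left hg0).1 h4
  have h5 : n1 ∣ a := hcop.dvd_of_dvd_mul_left h3
  have h6 : n ∣ (p : ℤ) ^ j * a := by
    rw [hn1, ← hgp]
    exact mul_dvd_mul_left g h5
  rcases hj.lt_or_eq with h | h
  · exact absurd h6 (h2 j h)
  · rw [hn1, hgp, h]
    exact dvd_mul_right _ _

end Pool.Agent.P8H52.TQ
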