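import Pool.Agent.P8H9.TQ.Stm
import Pool.Agent.P8H52.TQ.Ari

set_option autoImplicit false

/-!
# Project TQ: levels in stable cyclic groups (package LVL)
-/

namespace Pool.Agent.P8H52.TQ

open WeierstrassCurve NumberField IsDedekindDomain Pool.Agent.H901R3.MS Pool.Agent.Y673.Loc
open Pool.Agent.Y673.Loc.ZV Pool.Agent.W275.FM Pool.Agent.W275.FMK Pool.Agent.Y673.FM
open Pool.Agent.H691R3 Pool.Agent.W223.AK Pool.Agent.Y733.LS Pool.Agent.TH942
open Pool.Agent.Q19.SU Pool.Agent.P8H9.TQ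

section
variable {L : Type} [Field L] [DecidableEq L] [CharZero L] {w : ZV L} {H : ℤ} {e η : L}

theorem val_eta (D : Dt w 0 H e η) : w.E H (η / (3 * e)) := by
  have hd := D.dat.del
  have h0 : η / (3 * e) ≠ 0 := fun h => hd.1 (by rw [h]; ring)
  have h1 : w.E (w.v (η / (3 * e))) (η / (3 * e)) := E_of_ne h0
  have h2 := h1.sq.eq hd
  exact h1.cast (by omega)

/-- the root `-2e` is fixed by the inertia group -/
theorem fix_e (D : Dt w 0 H e η) {σ : L →+* L} (hσ : In w σ) (ha : σ (cA e η) = cA e η)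
    (hb : σ (cB e η) = cB e η) : σ e = e := by
  have ha' : -3 * σ e ^ 2 - σ η ^ 2 = -3 * e ^ 2 - η ^ 2 := by
    have h := ha
    unfold cA at h
    simpa only [map_sub, map_mul, map_pow, map_neg, map_ofNat] using h
  have hb' : 2 * σ e ^ 3 - 2 * σ e * σ η ^ 2 = 2 * e ^ 3 - 2 * e * η ^ 2 := by
    have h := hb
    unfold cB at h
    simpa only [map_sub, map_mul, map_pow, map_neg, map_ofNat] using h
  have hr : (-2 * σ e + 2 * e) * ((-2 * σ e - e) ^ 2 - η ^ 2) = 0 := by
    linear_combination (2 * σ e) * ha' - hb'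
  rcases mul_eq_zero.1 hr with h | h
  · have h2 : (2 : L) * (σ e - e) = 0 := by linear_combination -h
    rcases mul_eq_zero.1 h2 with h3 | h3
    · exact absurd h3 two_ne_zero
    · exact sub_eq_zero.1 h3
  exfalso
  have hH := D.dat.hH
  have h3 : w.E (w.v (3 * e)) (3 * e) := E_of_ne D.h3e
  have hη : w.E (H + w.v (3 * e)) η := by
    have h4 := (val_eta D).mul h3
    rwa [div_mul_cancel₀ _ D.h3e] at h4
  have h2η : w.E (H + w.v (3 * e)) (2 * σ η) := (D.dat.two.mul (hσ.E hη)).cast (by ring)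
  have hsq : (2 * σ η) ^ 2 = (2 * σ e + 4 * e) ^ 2 := by
    linear_combination (-4) * ha' - 4 * h
  have hE : w.E (w.v (3 * e)) (2 * σ e + 4 * e) := by
    have h5 : (-2 * σ e - e - η) * (-2 * σ e - e + η) = 0 := by linear_combination h
    rcases mul_eq_zero.1 h5 with h6 | h6
    · have e1 : 2 * σ e + 4 * e = 3 * e - η := by linear_combination -h6
      rw [e1]
      exact h3.subG hη.G (by omega)
    · have e1 : 2 * σ e + 4 * e = 3 * e + η := by linear_combination -h6
      rw [e1]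
      exact h3.addG hη.G (by omega)
  have h7 := h2η.sq
  rw [hsq] at h7
  have h8 := h7.eq hE.sq
  omega

end

/-- package LVL -/
theorem t_LVL : S_LVL := by
  intro K L _ _ _ _ _ _ _ w H e η D A B hA hB n p t i hH hp hi1 hit h2i hor hns P hP hP0 hst
  obtain ⟨I, hI⟩ : ∃ I, I = w.asIdeal.inertia (L ≃ₐ[K] L) := ⟨_, rfl⟩
  rw [← hI] at hH
  have hH1 := D.dat.hH
  have hfa : ∀ σ : L ≃ₐ[K] L, rh σ (cA e η) = cA e η := fun σ => by rw [← hA]; exact σ.commutes A
  have hfb : ∀ σ : L ≃ₐ[K] L, rh σ (cB e η) = cB e η := fun σ => by rw [← hB]; exact σ.commutes B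
  have hin : ∀ σ ∈ I, In (adv L w) (rh σ) := fun σ hσ => inertia_In K L w (by rw [← hI]; exact hσ)
  have hfe : ∀ σ ∈ I, rh σ e = e := fun σ hσ => fix_e D (hin σ hσ) (hfa σ) (hfb σ)
  haveI : Finite (L ≃ₐ[K] L) := inferInstance
  have hI0 : (Nat.card I : ℤ) ≠ 0 := by
    exact_mod_cast (Nat.card_pos (α := I)).ne'
  obtain ⟨α, hα⟩ := LV.total D P
  have hα0 := hα.nonneg D
  rcases eq_or_lt_of_le hα0 with h | hpos
  · rw [← h] at hα
    exact (T0 D).nsmul_mem hα (p ^ (t - i))
  by_contra hcon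
  have hnd : ∀ m : ℕ, 2 * H ∣ (m : ℤ) * α → LV (adv L w) 0 H e η (m • P) 0 := by
    intro m hm
    obtain ⟨⟨s, h1, h2⟩, -⟩ := LV.mult D hα hpos m
    have h3 : RR H (m * α) 0 := ⟨le_rfl, by omega, Or.inl (by rwa [sub_zero])⟩
    rw [h2.unique hH1 h3] at h1
    exact h1
  have htor : 2 * H ∣ (p : ℤ) ^ t * α := by
    have h := LV.tors D hα hpos hP
    exact_mod_cast h
  have hex : ∃ j : ℕ, 2 * H ∣ (p : ℤ) ^ j * α := ⟨t, htor⟩
  classical
  obtain ⟨k, hk, hkm⟩ : ∃ k : ℕ, 2 * H ∣ (p : ℤ) ^ k * α ∧ ∀ j < k, ¬ 2 * H ∣ (p : ℤ) ^ j * α :=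
    ⟨Nat.find hex, Nat.find_spec hex, fun j hj => Nat.find_min hex hj⟩
  have hkt : k ≤ t := by
    by_contra h
    exact hkm t (by omega) htor
  have hki : t - i < k := by
    by_contra h
    push Not at h
    apply hcon
    apply hnd
    have e1 : ((p ^ (t - i) : ℕ) : ℤ) * α = (p : ℤ) ^ (t - i - k) * ((p : ℤ) ^ k * α) := by
      push_cast
      rw [← mul_assoc, ← pow_add]
      congr 2
      omega
    rw [e1]
    exact hk.mul_left _
  have htk : t - k < k := by omega
  have hiff : ∀ m : ℤ, 2 * H ∣ m * α → (p : ℤ) ^ k ∣ m := ordl hp hk hkm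
  -- the point `P'` of order `p ^ k`
  obtain ⟨P', hP'⟩ : ∃ P', P' = p ^ (t - k) • P := ⟨_, rfl⟩
  have hkill : p ^ k • P' = 0 := by
    rw [hP', ← mul_smul, ← pow_add, show k + (t - k) = t by omega, hP]
  have hP'0 : P' ≠ 0 := by
    intro h
    apply hP0
    have h1 : p ^ (k - 1) • P' = p ^ (t - 1) • P := by
      rw [hP', ← mul_smul, ← pow_add, show k - 1 + (t - k) = t - 1 by omega]
    rw [← h1, h, smul_zero]
  have hzk : ∀ q : ℤ, ((p : ℤ) ^ k * q) • P' = 0 := by
    intro q
    have h1 : ((p : ℤ) ^ k) • P' = 0 := by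
      have h2 : (p : ℤ) ^ k = ((p ^ k : ℕ) : ℤ) := by push_cast; rfl
      rw [h2, natCast_zsmul, hkill]
    rw [mul_comm, mul_smul, h1, smul_zero]
  have hsig : ∀ σ ∈ I, ac two_ne_zero (rh σ) (hfa σ) (hfb σ) P' = P' ∨
      ac two_ne_zero (rh σ) (hfa σ) (hfb σ) P' = -P' := by
    intro σ hσ
    obtain ⟨m, hm⟩ := hst σ (hfa σ) (hfb σ)
    have hl : LV (adv L w) 0 H e η (m • P) α := by
      rw [← hm]; exact lv_ac' (hin σ hσ) (hfa σ) (hfb σ) (hfe σ hσ) hα
    have hmP' : ac two_ne_zero (rh σ) (hfa σ) (hfb σ) P' = m • P' := by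
      rw [hP', map_nsmul, hm, smul_comm]
    obtain ⟨⟨s, h1, h2⟩, -⟩ := LV.mult D hα hpos m.natAbs
    have h3 : LV (adv L w) 0 H e η (m • P) s := by
      rcases Int.natAbs_eq m with h | h
      · rw [h, natCast_zsmul]; exact h1
      · rw [h, neg_smul, natCast_zsmul]; exact h1.neg D
    rw [LV.unique D h3 hl] at h2
    have h4 : (p : ℤ) ^ k ∣ m - 1 ∨ (p : ℤ) ^ k ∣ m + 1 := by
      rcases h2.2.2 with h5 | h5
      · have h6 := hiff (m.natAbs - 1) (by
          have e1 : ((m.natAbs : ℤ) - 1) * α = m.natAbs * α - α := by ring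
          rw [e1]; exact h5)
        rcases Int.natAbs_eq m with h | h
        · left; rw [h]; exact h6
        · right
          rw [h, show -(m.natAbs : ℤ) + 1 = -((m.natAbs : ℤ) - 1) by ring, dvd_neg]
          exact h6
      · have h6 := hiff (m.natAbs + 1) (by
          have e1 : ((m.natAbs : ℤ) + 1) * α = m.natAbs * α + α := by ring
          rw [e1]; exact h5)
        rcases Int.natAbs_eq m with h | h
        · right; rw [h]; exact h6
        · left
          rw [h, show -(m.natAbs : ℤ) - 1 = -((m.natAbs : ℤ) + 1) by ring, dvd_neg]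
          exact h6
    rcases h4 with ⟨q, hq⟩ | ⟨q, hq⟩
    · left
      rw [hmP', show m = (p : ℤ) ^ k * q + 1 by linarith, add_smul, hzk, zero_add, one_smul]
    · right
      rw [hmP', show m = (p : ℤ) ^ k * q + (-1) by linarith, add_smul, hzk, zero_add, neg_smul,
        one_smul]
  -- its level
  obtain ⟨⟨α', hl', hrr⟩, -⟩ := LV.mult D hα hpos (p ^ (t - k))
  rw [← hP'] at hl'
  have hrr' : 2 * H ∣ (p : ℤ) ^ (t - k) * α - α' ∨ 2 * H ∣ (p : ℤ) ^ (t - k) * α + α' := by
    have h := hrr.2.2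
    push_cast at h
    exact h
  have htr : ∀ j : ℕ, 2 * H ∣ (p : ℤ) ^ j * α' ↔ 2 * H ∣ (p : ℤ) ^ (j + (t - k)) * α := by
    intro j
    have e0 : (p : ℤ) ^ (j + (t - k)) * α = (p : ℤ) ^ j * ((p : ℤ) ^ (t - k) * α) := by
      rw [pow_add, mul_assoc]
    rw [e0]
    rcases hrr' with h | h
    · have h1 := h.mul_left ((p : ℤ) ^ j)
      rw [mul_sub] at h1
      exact (dvd_iff_dvd_of_dvd_sub h1).symm
    · have h1 := h.mul_left ((p : ℤ) ^ j)
      rw [mul_add] at h1
      constructor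
      · intro h2; exact (dvd_add_left h2).1 h1
      · intro h2; exact (dvd_add_right h2).1 h1
  obtain ⟨r, hr⟩ : ∃ r, r = 2 * k - t := ⟨_, rfl⟩
  have hr1 : 2 * H ∣ (p : ℤ) ^ r * α' := by
    rw [htr, show r + (t - k) = k by omega]
    exact hk
  have hr2 : ∀ j < r, ¬ 2 * H ∣ (p : ℤ) ^ j * α' := by
    intro j hj h
    rw [htr] at h
    exact hkm _ (by omega) h
  have hr0 : 1 ≤ r := by omega
  have hα'0 : 0 < α' := by
    rcases hrr.1.lt_or_eq with h | h
    · exact h
    · exfalso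
      exact hr2 0 (by omega) (by rw [← h, mul_zero]; exact dvd_zero _)
  have hα'H := hrr.2.1
  rcases P' with _ | ⟨x', y', hn'⟩
  · exact hP'0 rfl
  have hxfix : ∀ σ ∈ I, σ x' = x' := by
    intro σ hσ
    rcases hsig σ hσ with h | h
    · rw [ac_some, Affine.Point.some.injEq] at h
      exact h.1
    · have h1 : (CV (cA e η) (cB e η)).toAffine.Nonsingular x' (-y') := by
        have h0 := hn'
        rw [nonsingular_iff D.disc] at h0 ⊢
        unfold Eqn at h0 ⊢
        rw [neg_sq]; exact h0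
      rw [ac_some, neg_some' hn' h1, Affine.Point.some.injEq] at h
      exact h.1
  have hzfix : ∀ σ ∈ I, σ ((x' - e) / (3 * e)) = (x' - e) / (3 * e) := by
    intro σ hσ
    have h5 : σ e = e := hfe σ hσ
    rw [map_div₀, map_sub, map_mul, map_ofNat, hxfix σ hσ, h5]
  have hdvd := fix_dvd K L w I (by rw [hI]) _ hzfix
  have hNN : NN (adv L w) 0 H ((x' - e) / (3 * e)) α' := hl'
  rcases hα'H.lt_or_eq with hlt | hαH
  · -- below the top level
    have hval : (adv L w).E α' ((x' - e) / (3 * e)) :=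
      (NN.E (w := adv L w) (c := 0) (H := H) hNN hα'0 hlt).cast (by ring)
    rw [hval.2] at hdvd
    obtain ⟨a', ha'⟩ := hdvd
    have hcan : ∀ j : ℕ, 2 * H ∣ (p : ℤ) ^ j * α' ↔ (n : ℤ) ∣ (p : ℤ) ^ j * a' := by
      intro j
      have e1 : (p : ℤ) ^ j * α' = ((p : ℤ) ^ j * a') * Nat.card I := by rw [ha']; ring
      rw [e1, hH]
      exact mul_dvd_mul_iff_right hI0
    have h1 := powd (n := (n : ℤ)) (a := a') (r := r) hp ((hcan r).1 hr1)
      (fun j hj h => hr2 j hj ((hcan j).2 h))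
    apply hns
    have h2 : p ^ r ∣ n := by exact_mod_cast h1
    exact (pow_dvd_pow p (by omega)).trans h2
  · -- the top level
    have hH0 : H ≠ 0 := by omega
    have hc2 : ∀ j : ℕ, 2 * H ∣ (p : ℤ) ^ j * α' ↔ (2 : ℤ) ∣ (p : ℤ) ^ j := by
      intro j
      rw [hαH]
      exact mul_dvd_mul_iff_right hH0
    have hp2 : p = 2 := by
      have h1 := (hc2 r).1 hr1
      have h2 : 2 ∣ p ^ r := by exact_mod_cast h1
      exact ((Nat.prime_dvd_prime_iff_eq Nat.prime_two hp).1 (Nat.prime_two.dvd_of_dvd_pow h2)).symm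
    subst hp2
    have hr1' : r = 1 := by
      by_contra hne
      exact hr2 1 (by omega) ((hc2 1).2 (by norm_num))
    have hi : i = 1 := by
      rcases hor with h | h
      · exact h
      · omega
    have ht : t = 1 := by omega
    have hk1 : k = 1 := by omega
    -- the point has order two
    have hn1 : (CV (cA e η) (cB e η)).toAffine.Nonsingular x' (-y') := by
      have h0 := hn'
      rw [nonsingular_iff D.disc] at h0 ⊢
      unfold Eqn at h0 ⊢
      rw [neg_sq]; exact h0
    have hy : y' = 0 := by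
      rw [hk1, pow_one, two_nsmul] at hkill
      have h1 := eq_neg_of_add_eq_zero_left hkill
      rw [neg_some' hn' hn1, Affine.Point.some.injEq] at h1
      have h2 : (2 : L) * y' = 0 := by linear_combination h1.2
      exact (mul_eq_zero.1 h2).resolve_left two_ne_zero
    have heq : (x' + 2 * e) * ((x' - e) ^ 2 - η ^ 2) = 0 := by
      have h0 := hn'
      rw [nonsingular_iff D.disc] at h0
      unfold Eqn cA cB at h0
      rw [hy] at h0
      linear_combination -h0
    have hG : (adv L w).G H ((x' - e) / (3 * e)) := by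
      have h := hNN.G hα'0
      rw [hαH] at h
      simpa using h
    have h3e := D.h3e
    have hE : (adv L w).E H ((x' - e) / (3 * e)) := by
      rcases mul_eq_zero.1 heq with h | h
      · exfalso
        have e1 : (x' - e) / (3 * e) = -1 := by
          rw [div_eq_iff h3e]
          linear_combination h
        rw [e1] at hG
        have := (E_one (w := adv L w)).neg.le_of_G hG
        omega
      · have h5 : (x' - e - η) * (x' - e + η) = 0 := by linear_combination h
        rcases mul_eq_zero.1 h5 with h6 | h6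
        · rw [show x' - e = η by linear_combination h6]
          exact val_eta D
        · rw [show x' - e = -η by linear_combination h6, neg_div]
          exact (val_eta D).neg
    rw [hE.2] at hdvd
    obtain ⟨h', hh'⟩ := hdvd
    apply hns
    have e1 : (n : ℤ) = 2 * h' := by
      have h7 : (n : ℤ) * Nat.card I = (2 * h') * Nat.card I := by
        rw [← hH, hh']; ring
      exact mul_right_cancel₀ hI0 h7
    rw [show t + 2 - 2 * i = 1 by omega, pow_one]
    have h8 : (2 : ℤ) ∣ (n : ℤ) := ⟨h', e1⟩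
    exact_mod_cast h8

end Pool.Agent.P8H52.TQ
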